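import Mathlib
import Pool.Agent.V11122.TreeDec

set_option autoImplicit false

/-! `P₅`-free graphs whose tree-independence number exceeds the induced biclique number by an
arbitrary constant: the blow-ups of the 5-cycle by independent sets of size `m`. -/

namespace Pool.Agent.Results.MP_0bffa7_co.NoAdditiveConstant

open SimpleGraph Pool.Agent.V11122

/-- The tree-independence number: the least `k` such that `G` has a tree decomposition
(`Pool.Agent.V11122.IsTreeDecomp`) in which every independent set contained in a bag has at most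
`k` vertices. -/
noncomputable def treeAlpha {V : Type} (G : SimpleGraph V) : ℕ :=
  sInf {k | ∃ (n : ℕ) (T : SimpleGraph (Fin n)) (bag : Fin n → Set V), IsTreeDecomp G T bag ∧
    ∀ t, ∀ S : Finset V, (S : Set V) ⊆ bag t → G.IsIndepSet (S : Set V) → S.card ≤ k}

/-- The induced biclique number: the largest `t` such that `K_{t,t}` is an induced subgraph. -/
noncomputable def ibn {V : Type} (G : SimpleGraph V) : ℕ :=
  sSup {t | (completeBipartiteGraph (Fin t) (Fin t)).IsIndContained G}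

/-- The blow-up of the 5-cycle by independent sets of size `m`. -/
def blow (m : ℕ) : SimpleGraph (Fin 5 × Fin m) :=
  (SimpleGraph.cycleGraph 5).comap Prod.fst

theorem cyc_adj (i j : Fin 5) : (cycleGraph 5).Adj i j ↔ (j = i + 1 ∨ i = j + 1) := by
  revert i j
  decide

theorem blow_adj {m : ℕ} (x y : Fin 5 × Fin m) :
    (blow m).Adj x y ↔ (y.1 = x.1 + 1 ∨ x.1 = y.1 + 1) := by
  simp only [blow, comap_adj]
  exact cyc_adj _ _

theorem path_adj (i j : Fin 5) :
    (pathGraph 5).Adj i j ↔ (i.val + 1 = j.val ∨ j.val + 1 = i.val) := by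
  rw [SimpleGraph.pathGraph_adj]

theorem no_map_aux : ∀ a b : Fin 5, (b = a + 1 ∨ a = b + 1) →
    ∀ c : Fin 5, (c = b + 1 ∨ b = c + 1) → ¬ (c = a + 1 ∨ a = c + 1) → 
    ∀ d : Fin 5, (d = c + 1 ∨ c = d + 1) → ¬ (d = a + 1 ∨ a = d + 1) →
    ¬ (d = b + 1 ∨ b = d + 1) →
    ∀ e : Fin 5, (e = d + 1 ∨ d = e + 1) → ¬ (e = a + 1 ∨ a = e + 1) →
    ¬ (e = b + 1 ∨ b = e + 1) → ¬ (e = c + 1 ∨ c = e + 1) → False := by
  decide

theorem no_map (f : Fin 5 → Fin 5) :
    ¬ ∀ i j : Fin 5, (i.val + 1 = j.val ∨ j.val + 1 = i.val) ↔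
      (f j = f i + 1 ∨ f i = f j + 1) := by
  intro h
  refine no_map_aux (f 0) (f 1) ((h 0 1).1 (by decide)) (f 2) ((h 1 2).1 (by decide)) ?_ (f 3)
    ((h 2 3).1 (by decide)) ?_ ?_ (f 4) ((h 3 4).1 (by decide)) ?_ ?_ ?_
  · rw [← h 0 2]; decide
  · rw [← h 0 3]; decide
  · rw [← h 1 3]; decide
  · rw [← h 0 4]; decide
  · rw [← h 1 4]; decide
  · rw [← h 2 4]; decide

theorem p5_free (m : ℕ) : ¬ (pathGraph 5).IsIndContained (blow m) := by
  rintro ⟨f⟩
  apply no_map (fun i => (f i).1)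
  intro i j
  rw [← path_adj, ← blow_adj (f i) (f j)]
  exact (f.map_rel_iff).symm

theorem nonadj_common : ∀ c c' d d' : Fin 5, c ≠ c' → (d = c + 1 ∨ c = d + 1) →
    (d = c' + 1 ∨ c' = d + 1) → (d' = c + 1 ∨ c = d' + 1) → (d' = c' + 1 ∨ c' = d' + 1) →
    d = d' := by
  decide

theorem biclique_le {m t : ℕ}
    (h : (completeBipartiteGraph (Fin t) (Fin t)).IsIndContained (blow m)) : t ≤ m := by
  obtain ⟨f⟩ := h
  by_contra hlt
  push Not at hlt
  have hinj : Function.Injective f := f.injective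
  -- any map of `Fin t` into one class is not injective
  have one : ∀ (g : Fin t → Fin 5 × Fin m), Function.Injective g → ∃ i j, (g i).1 ≠ (g j).1 := by
    intro g hg
    by_contra hc
    push Not at hc
    have : Function.Injective (fun i => (g i).2) := by
      intro i j hij
      exact hg (Prod.ext (hc i j) hij)
    have := Fintype.card_le_of_injective _ this
    simp at this
    omega
  obtain ⟨i, j, hij⟩ := one (fun i => f (Sum.inl i)) (fun a b hab => by
    have := hinj hab; simpa using this)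
  obtain ⟨k, l, hkl⟩ := one (fun i => f (Sum.inr i)) (fun a b hab => by
    have := hinj hab; simpa using this)
  apply hkl
  have adj : ∀ a b, (blow m).Adj (f (Sum.inl a)) (f (Sum.inr b)) := by
    intro a b
    rw [f.map_rel_iff]
    simp
  exact nonadj_common _ _ _ _ hij ((blow_adj _ _).1 (adj i k)) ((blow_adj _ _).1 (adj j k))
    ((blow_adj _ _).1 (adj i l)) ((blow_adj _ _).1 (adj j l))

theorem ibn_le (m : ℕ) : ibn (blow m) ≤ m := by
  apply csSup_le
  · refine ⟨0, ?_⟩
    exact ⟨⟨⟨fun x => by rcases x with x | x <;> exact x.elim0,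
      fun x => by rcases x with x | x <;> exact x.elim0⟩,
      fun {x} => by rcases x with x | x <;> exact x.elim0⟩⟩
  · intro t ht
    exact biclique_le ht

/-- The class `i` of the blow-up. -/
def cls (m : ℕ) (i : Fin 5) : Finset (Fin 5 × Fin m) := {i} ×ˢ Finset.univ

theorem mem_cls {m : ℕ} {i : Fin 5} {x : Fin 5 × Fin m} : x ∈ cls m i ↔ x.1 = i := by
  simp only [cls, Finset.mem_product, Finset.mem_singleton, Finset.mem_univ, and_true]

theorem card_cls (m : ℕ) (i : Fin 5) : (cls m i).card = m := by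
  simp [cls]

theorem card_two (m : ℕ) (i j : Fin 5) (hij : i ≠ j) : (cls m i ∪ cls m j).card = 2 * m := by
  rw [Finset.card_union_of_disjoint, card_cls, card_cls]
  · ring
  · rw [Finset.disjoint_left]
    intro x hx hy
    rw [mem_cls] at hx hy
    exact hij (hx.symm.trans hy)

theorem indep_two (m : ℕ) (i j : Fin 5) (h1 : j = i + 2) :
    (blow m).IsIndepSet ((cls m i ∪ cls m j : Finset (Fin 5 × Fin m)) : Set (Fin 5 × Fin m)) := by
  intro x hx y hy _ hadj
  rw [blow_adj] at hadj
  simp only [Finset.coe_union, Set.mem_union, Finset.mem_coe, mem_cls] at hx hy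
  subst h1
  have : ∀ i a b : Fin 5, (a = i ∨ a = i + 2) → (b = i ∨ b = i + 2) →
      ¬ (b = a + 1 ∨ a = b + 1) := by decide
  exact this i _ _ hx hy hadj

theorem classes_dec : ∀ c c' : Fin 5, ¬ (c' = c + 1 ∨ c = c' + 1) →
    (c' = c) ∨ (c' = c + 2) ∨ (c = c' + 2) := by decide

/-- In every tree decomposition some bag contains two non-adjacent classes. -/
theorem big_bag {m : ℕ} (hm : 0 < m) {ι : Type} [Nonempty ι] [Finite ι] {T : SimpleGraph ι}
    {bag : ι → Set (Fin 5 × Fin m)} (h : IsTreeDecomp (blow m) T bag) :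
    ∃ t i, ((cls m i ∪ cls m (i + 2) : Finset (Fin 5 × Fin m)) : Set (Fin 5 × Fin m)) ⊆ bag t := by
  rcases exists_sepEdge h with ⟨t, ht⟩ | ⟨a, b, x, z, hs⟩
  · exact ⟨t, 0, by rw [ht]; exact Set.subset_univ _⟩
  -- common neighbours
  have common : ∀ u, (blow m).Adj x u → (blow m).Adj u z → u ∈ bag a := by
    intro u hxu huz
    obtain ⟨p, hp1, hp2⟩ := h.edge _ _ hxu
    obtain ⟨q, hq1, hq2⟩ := h.edge _ _ huz
    exact (mem_both h hs.adj hp2 hq1 (hs.hx p hp1) (hs.hz q hq2)).1
  have common2 : ∀ w u, (blow m).Adj x w → (blow m).Adj w u → (blow m).Adj u z →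
      w ∈ bag a ∨ u ∈ bag a := by
    intro w u hxw hwu huz
    by_contra hc
    push Not at hc
    obtain ⟨p, hp1, hp2⟩ := h.edge _ _ hxw
    obtain ⟨r, hr1, hr2⟩ := h.edge _ _ hwu
    obtain ⟨q, hq1, hq2⟩ := h.edge _ _ huz
    have e1 := reach_of_not_both h (a := a) (b := b) (fun hh => hc.1 hh.1) hp2 hr1
    have e2 := reach_of_not_both h (a := a) (b := b) (fun hh => hc.2 hh.1) hr2 hq1
    have e3 := hs.hx p hp1
    have e4 := hs.hz q hq2
    exact not_reach h hs.adj (e4.trans ((e1.trans e2).symm.trans e3.symm))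
  have nadj : ¬ (blow m).Adj x z := by
    intro hadj
    obtain ⟨p, hp1, hp2⟩ := h.edge _ _ hadj
    exact not_reach h hs.adj ((hs.hz p hp2).trans (hs.hx p hp1).symm)
  rw [blow_adj] at nadj
  -- the case analysis on classes
  have main : ∀ (x z : Fin 5 × Fin m), (z.1 = x.1 ∨ z.1 = x.1 + 2) →
      (∀ u, (blow m).Adj x u → (blow m).Adj u z → u ∈ bag a) →
      (∀ w u, (blow m).Adj x w → (blow m).Adj w u → (blow m).Adj u z → w ∈ bag a ∨ u ∈ bag a) →
      ∃ i, ((cls m i ∪ cls m (i + 2) : Finset (Fin 5 × Fin m)) : Set (Fin 5 × Fin m)) ⊆ bag a := by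
    intro x z hxz c1 c2
    rcases hxz with hxz | hxz
    · refine ⟨x.1 + 4, ?_⟩
      intro u hu
      simp only [Finset.coe_union, Set.mem_union, Finset.mem_coe, mem_cls] at hu
      have hd : ∀ c u : Fin 5, (u = c + 4 ∨ u = c + 4 + 2) →
          ((u = c + 1 ∨ c = u + 1) ∧ (c = u + 1 ∨ u = c + 1)) := by decide
      have := hd x.1 u.1 hu
      apply c1 u
      · rw [blow_adj]; exact this.1
      · rw [blow_adj, hxz]; exact this.2
    · -- classes `c` and `c+2`
      have hmid : ∀ u : Fin 5 × Fin m, u.1 = x.1 + 1 → u ∈ bag a := by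
        intro u hu
        have hd : ∀ c : Fin 5, (c + 1 = c + 1 ∨ c = c + 1 + 1) ∧
          (c + 2 = c + 1 + 1 ∨ c + 1 = c + 2 + 1) := by decide
        apply c1 u
        · rw [blow_adj, hu]; exact (hd x.1).1
        · rw [blow_adj, hu, hxz]; exact (hd x.1).2
      by_cases hall : ∀ w : Fin 5 × Fin m, w.1 = x.1 + 4 → w ∈ bag a
      · refine ⟨x.1 + 4, ?_⟩
        intro u hu
        simp only [Finset.coe_union, Set.mem_union, Finset.mem_coe, mem_cls] at hu
        rcases hu with hu | hu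
        · exact hall u hu
        · apply hmid
          rw [hu]
          have hd : ∀ c : Fin 5, c + 4 + 2 = c + 1 := by decide
          exact hd _
      · push Not at hall
        obtain ⟨w, hw1, hw2⟩ := hall
        refine ⟨x.1 + 1, ?_⟩
        intro u hu
        simp only [Finset.coe_union, Set.mem_union, Finset.mem_coe, mem_cls] at hu
        rcases hu with hu | hu
        · exact hmid u hu
        · have hd : ∀ c : Fin 5, (c + 4 = c + 1 ∨ c = c + 4 + 1) ∧
            (c + 1 + 2 = c + 4 + 1 ∨ c + 4 = c + 1 + 2 + 1) ∧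
            (c + 2 = c + 1 + 2 + 1 ∨ c + 1 + 2 = c + 2 + 1) := by decide
          have hd := hd x.1
          rcases c2 w u (by rw [blow_adj, hw1]; exact hd.1)
            (by rw [blow_adj, hw1, hu]; exact hd.2.1)
            (by rw [blow_adj, hu, hxz]; exact hd.2.2) with h1 | h1
          · exact absurd h1 hw2
          · exact h1
  rcases classes_dec _ _ nadj with hc | hc | hc
  · obtain ⟨i, hi⟩ := main x z (Or.inl hc) common common2
    exact ⟨a, i, hi⟩
  · obtain ⟨i, hi⟩ := main x z (Or.inr hc) common common2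
    exact ⟨a, i, hi⟩
  · obtain ⟨i, hi⟩ := main z x (Or.inr hc) (fun u h1 h2 => common u h2.symm h1.symm)
      (fun w u h1 h2 h3 => (common2 u w h3.symm h2.symm h1.symm).symm)
    exact ⟨a, i, hi⟩

theorem ne_add_two : ∀ i : Fin 5, i ≠ i + 2 := by decide

theorem le_treeAlpha {m : ℕ} (hm : 0 < m) : 2 * m ≤ treeAlpha (blow m) := by
  apply le_csInf
  · refine ⟨5 * m, 1, ⊥, fun _ => Set.univ, ⟨?_, ?_, ?_, ?_⟩, ?_⟩
    · exact SimpleGraph.IsTree.of_subsingleton
    · intro v; exact ⟨0, trivial⟩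
    · intro u v _; exact ⟨0, trivial, trivial⟩
    · intro v ⟨s, hs⟩ ⟨t, ht⟩
      have : (⟨s, hs⟩ : {t : Fin 1 | v ∈ (Set.univ : Set (Fin 5 × Fin m))}) = ⟨t, ht⟩ :=
        Subtype.ext (Subsingleton.elim _ _)
      rw [this]
    · intro t S _ _
      calc S.card ≤ Fintype.card (Fin 5 × Fin m) := Finset.card_le_univ S
        _ = 5 * m := by simp
  · rintro k ⟨n, T, bag, h, hk⟩
    obtain ⟨t0, -⟩ := h.vertex (0, ⟨0, hm⟩)
    haveI : Nonempty (Fin n) := ⟨t0⟩
    obtain ⟨t, i, hi⟩ := big_bag hm h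
    have := hk t _ hi (indep_two m i (i + 2) rfl)
    rwa [card_two m i (i + 2) (ne_add_two i)] at this

/-- There is no constant `c` with `tree-α(G) ≤ ibn(G) + c` for all `P₅`-free graphs `G`. -/
theorem result : ¬ ∃ c : ℕ, ∀ (V : Type) [Fintype V] (G : SimpleGraph V),
    ¬ (pathGraph 5).IsIndContained G → treeAlpha G ≤ ibn G + c := by
  rintro ⟨c, hc⟩
  have h1 := hc (Fin 5 × Fin (c + 1)) (blow (c + 1)) (p5_free (c + 1))
  have h2 := le_treeAlpha (m := c + 1) (Nat.succ_pos c)
  have h3 := ibn_le (c + 1)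
  omega

end Pool.Agent.Results.MP_0bffa7_co.NoAdditiveConstant
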